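import Pool.Agent.W839.FS.Alg

/-!
# The computations in the four cores
-/

set_option autoImplicit false

namespace Pool.Agent.W839.FS.Alg

open Pool.Agent.W491.FS

theorem a3 : S_A3 :=
  cert_of s3 1 1 one_ne_zero one_ne_zero d3_beta d3_theta [(-1, [0, 1, 4])] [0, 1, 2, 3] (-1)
    [0, 1, 2] (by decide) (by decide) (by decide) (by decide +kernel) (by decide +kernel)
    (by decide +kernel) (by decide +kernel) (by decide +kernel)

theorem a4 : S_A4 :=
  cert_of s4 2 6 (by decide) (by decide) d4_beta d4_theta
    [(-4, [0, 2, 3, 4]), (2, [0, 1, 3, 5]), (2, [0, 1, 2, 6])] [0, 1, 2, 3, 4] 2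
    [0, 1, 2, 3] (by decide) (by decide) (by decide) (by decide +kernel) (by decide +kernel)
    (by decide +kernel) (by decide +kernel) (by decide +kernel)

theorem aP : S_AP :=
  ccert_of sP 3 3 (by decide) (by decide) dP_beta dP_theta
    [(3, [0, 1, 2, 3, 6])] [0, 1, 2, 3, 4, 5] 2
    [0, 1, 2, 3, 4] (by decide) (by decide) (by decide) (by decide +kernel) (by decide +kernel)
    (by decide +kernel) (by decide +kernel) (by decide +kernel) dP_lam dP_psi dP_psi1
    (by decide +kernel) (by decide +kernel) (by decide +kernel) (by decide +kernel)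
    (by decide +kernel) (by decide +kernel) (by decide +kernel)

theorem aQ : S_AQ :=
  ccert_of sQ 2 1 (by decide) (by decide) dQ_beta dQ_theta
    [(2, [0, 1, 2, 3, 4, 7])] [0, 1, 2, 3, 4, 5, 6] 2
    [0, 1, 2, 3, 4, 5] (by decide) (by decide) (by decide) (by decide +kernel) (by decide +kernel)
    (by decide +kernel) (by decide +kernel) (by decide +kernel) dQ_lam dQ_psi dQ_psi1
    (by decide +kernel) (by decide +kernel) (by decide +kernel) (by decide +kernel)
    (by decide +kernel) (by decide +kernel) (by decide +kernel)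

end Pool.Agent.W839.FS.Alg
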