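import Pool.Agent.W491.FS.Stm
import Pool.Agent.W491.FS.Data

/-!
# Verified computations in the exterior algebras of the four cores
-/

set_option autoImplicit false

namespace Pool.Agent.W839.FS.Alg

open Pool.Agent.W491.FS

/-- polynomials: lists of (coefficient, monomial) -/
abbrev Po : Type := List (ℤ × List ℕ)

/-- insertion of a generator into a sorted monomial, with sign (`0` for a repeated letter) -/
def ins (a : ℕ) : List ℕ → ℤ × List ℕ
  | [] => (1, [a])
  | b :: l => if Nat.blt a b then (1, a :: b :: l) else if Nat.beq a b then (0, []) else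
      match ins a l with
      | (s, l') => (-s, b :: l')

/-- sorting of a monomial with sign -/
def srt : List ℕ → ℤ × List ℕ
  | [] => (1, [])
  | a :: l => match srt l with
    | (s, l') => match ins a l' with
      | (s', l'') => (s * s', l'')

/-- equality of monomials -/
def eqm : List ℕ → List ℕ → Bool
  | [], [] => true
  | a :: l, b :: l' => Nat.beq a b && eqm l l'
  | _, _ => false

theorem eqm_eq : ∀ l l' : List ℕ, eqm l l' = true → l = l'
  | [], [], _ => rfl
  | [], _ :: _, h => by simp [eqm] at h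
  | _ :: _, [], h => by simp [eqm] at h
  | a :: l, b :: l', h => by
    simp only [eqm, Bool.and_eq_true] at h
    rw [Nat.eq_of_beq_eq_true h.1, eqm_eq l l' h.2]

/-- add a term to a polynomial -/
def addm (c : ℤ) (mo : List ℕ) : Po → Po
  | [] => [(c, mo)]
  | (c', mo') :: t => if eqm mo mo' then (c + c', mo') :: t else (c', mo') :: addm c mo t

/-- collected normal form -/
def nrm : Po → Po
  | [] => []
  | (c, mo) :: t => match srt mo with
    | (s, mo') => addm (c * s) mo' (nrm t)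

/-- all coefficients of the normal form vanish -/
def chk (p : Po) : Bool := (nrm p).all fun t => t.1 == 0

section ev

variable (m : ℕ)

/-- value of a monomial -/
noncomputable def evm (l : List ℕ) : Lam (Fin (m + 1)) := (l.map fun i => gen (gnum m i)).prod

/-- value of a polynomial -/
noncomputable def ev (p : Po) : Lam (Fin (m + 1)) :=
  (p.map fun t => (t.1 : ℂ) • evm m t.2).sum

theorem elt_eq (N : ℕ) (L : Po) : elt m N L = ((N : ℂ)⁻¹) • ev m L := rfl

@[simp] theorem evm_nil : evm m [] = 1 := rfl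
theorem evm_cons (a : ℕ) (l : List ℕ) : evm m (a :: l) = gen (gnum m a) * evm m l := rfl
@[simp] theorem ev_nil : ev m [] = 0 := rfl
theorem ev_cons (t : ℤ × List ℕ) (p : Po) : ev m (t :: p) = (t.1 : ℂ) • evm m t.2 + ev m p := rfl
theorem ev_append (p q : Po) : ev m (p ++ q) = ev m p + ev m q := by
  simp [ev]

theorem evm_append (l l' : List ℕ) : evm m (l ++ l') = evm m l * evm m l' := by
  simp [evm]

theorem gen_sq {ι : Type} [DecidableEq ι] (i : ι ⊕ ι) : (gen i : Lam ι) * gen i = 0 :=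
  ExteriorAlgebra.ι_sq_zero _

theorem gen_anti {ι : Type} [DecidableEq ι] (i j : ι ⊕ ι) :
    (gen i : Lam ι) * gen j = -(gen j * gen i) := by
  have h := ExteriorAlgebra.ι_sq_zero (R := ℂ) (Pi.single i (1:ℂ) + Pi.single j (1:ℂ) : (ι ⊕ ι) → ℂ)
  rw [map_add, add_mul, mul_add, mul_add] at h
  have h1 : ExteriorAlgebra.ι ℂ (Pi.single i (1:ℂ) : (ι ⊕ ι) → ℂ) *
    ExteriorAlgebra.ι ℂ (Pi.single i (1:ℂ)) = 0 := ExteriorAlgebra.ι_sq_zero _
  have h2 : ExteriorAlgebra.ι ℂ (Pi.single j (1:ℂ) : (ι ⊕ ι) → ℂ) *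
    ExteriorAlgebra.ι ℂ (Pi.single j (1:ℂ)) = 0 := ExteriorAlgebra.ι_sq_zero _
  rw [h1, h2, zero_add, add_zero] at h
  exact eq_neg_of_add_eq_zero_left h

theorem ins_spec (a : ℕ) : ∀ l : List ℕ,
    gen (gnum m a) * evm m l = ((ins a l).1 : ℂ) • evm m (ins a l).2
  | [] => by simp [ins, evm_cons]
  | b :: l => by
    have ih := ins_spec a l
    unfold ins
    split_ifs with h1 h2
    · simp [evm_cons]
    · have h3 := Nat.eq_of_beq_eq_true h2
      subst h3
      rw [evm_cons, ← mul_assoc, gen_sq]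
      simp
    · rw [evm_cons, ← mul_assoc, gen_anti, neg_mul, mul_assoc, ih]
      simp [evm_cons]

theorem srt_spec : ∀ l : List ℕ, evm m l = ((srt l).1 : ℂ) • evm m (srt l).2
  | [] => by simp [srt]
  | a :: l => by
    have ih := srt_spec l
    unfold srt
    rw [evm_cons, ih, mul_smul_comm, ins_spec, smul_smul]
    simp

theorem addm_spec (c : ℤ) (mo : List ℕ) : ∀ p : Po,
    ev m (addm c mo p) = (c : ℂ) • evm m mo + ev m p
  | [] => by simp [addm, ev_cons]
  | (c', mo') :: t => by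
    have ih := addm_spec c mo t
    unfold addm
    split_ifs with h
    · have := eqm_eq _ _ h
      subst this
      rw [ev_cons, ev_cons]
      simp only [Int.cast_add, add_smul]
      abel
    · rw [ev_cons, ev_cons, ih]
      simp only []
      abel

theorem nrm_spec : ∀ p : Po, ev m (nrm p) = ev m p
  | [] => rfl
  | (c, mo) :: t => by
    have ih := nrm_spec t
    unfold nrm
    rw [ev_cons, addm_spec, ih]
    simp only []
    rw [srt_spec m mo, smul_smul]
    simp

theorem chk_spec (p : Po) (h : chk p = true) : ev m p = 0 := by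
  rw [← nrm_spec]
  unfold chk at h
  revert h
  generalize nrm p = q
  intro h
  induction q with
  | nil => rfl
  | cons t q ih =>
    rw [List.all_cons, Bool.and_eq_true] at h
    rw [ev_cons, ih h.2]
    have h1 : t.1 = 0 := by simpa using h.1
    rw [h1]
    simp

/-- scaling -/
def scl (k : ℤ) (p : Po) : Po := p.map fun t => (k * t.1, t.2)

theorem scl_spec (k : ℤ) (p : Po) : ev m (scl k p) = (k : ℂ) • ev m p := by
  induction p with
  | nil => simp [scl]
  | cons t p ih =>
    have : scl k (t :: p) = (k * t.1, t.2) :: scl k p := rfl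
    rw [this, ev_cons, ev_cons, ih, smul_add, smul_smul]
    simp

/-- two polynomials with proportional values -/
theorem eq_of_chk (k : ℤ) (p q : Po) (h : chk (p ++ scl (-k) q) = true) :
    ev m p = (k : ℂ) • ev m q := by
  have h1 := chk_spec m _ h
  rw [ev_append, scl_spec] at h1
  rw [← sub_eq_zero, ← h1]
  simp [sub_eq_add_neg]

/-- left multiplication by a monomial -/
def mml (l : List ℕ) (p : Po) : Po := p.map fun t => (t.1, l ++ t.2)

theorem mml_spec (l : List ℕ) (p : Po) : ev m (mml l p) = evm m l * ev m p := by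
  induction p with
  | nil => simp [mml]
  | cons t p ih =>
    have : mml l (t :: p) = (t.1, l ++ t.2) :: mml l p := rfl
    rw [this, ev_cons, ev_cons, ih, mul_add, evm_append, mul_smul_comm]

/-- right multiplication by a monomial -/
def mmr (p : Po) (l : List ℕ) : Po := p.map fun t => (t.1, t.2 ++ l)

theorem mmr_spec (l : List ℕ) (p : Po) : ev m (mmr p l) = ev m p * evm m l := by
  induction p with
  | nil => simp [mmr]
  | cons t p ih =>
    have : mmr (t :: p) l = (t.1, t.2 ++ l) :: mmr p l := rfl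
    rw [this, ev_cons, ev_cons, ih, add_mul, evm_append, smul_mul_assoc]

/-- number of a generator -/
def num : Fin (m + 1) ⊕ Fin (m + 1) → ℕ
  | Sum.inl i => i.val
  | Sum.inr i => m + 1 + i.val

theorem gnum_num (x : Fin (m + 1) ⊕ Fin (m + 1)) : gnum m (num m x) = x := by
  rcases x with i | i
  · have h : (i : ℕ) ≤ m := Nat.lt_succ_iff.1 i.2
    change gnum m (i : ℕ) = _
    unfold gnum
    rw [if_pos h]
    congr 1
    apply Fin.ext
    simp [Fin.ofNat, Nat.mod_eq_of_lt i.2]
  · have h : ¬ (m + 1 + (i : ℕ) ≤ m) := by omega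
    change gnum m (m + 1 + (i : ℕ)) = _
    unfold gnum
    rw [if_neg h]
    congr 1
    apply Fin.ext
    simp [Fin.ofNat, Nat.mod_eq_of_lt i.2]

/-- terms of the differential of a generator -/
def dg (s : Str (Fin (m + 1))) (i : ℕ) : List (ℤ × ℕ × ℕ) :=
  if i ≤ m then (s (Fin.ofNat (m + 1) i)).map fun t => (t.1, num m t.2.1, num m t.2.2)
  else (s (Fin.ofNat (m + 1) (i - (m + 1)))).map fun t =>
    (t.1, num m t.2.1.swap, num m t.2.2.swap)

theorem quad_num (L : List (ℤ × (Fin (m + 1) ⊕ Fin (m + 1)) × (Fin (m + 1) ⊕ Fin (m + 1)))) :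
    (quad L : Lam (Fin (m + 1))) = ev m (L.map fun t => (t.1, [num m t.2.1, num m t.2.2])) := by
  induction L with
  | nil => simp [quad]
  | cons t L ih =>
    have h1 : (quad (t :: L) : Lam (Fin (m + 1))) =
      (t.1 : ℂ) • (gen t.2.1 * gen t.2.2) + quad L := by simp [quad]
    rw [h1, ih, List.map_cons, ev_cons]
    simp [evm_cons, gnum_num]

theorem dgen_eq (s : Str (Fin (m + 1))) (i : ℕ) :
    dgen s (gnum m i) = ev m ((dg m s i).map fun t => (t.1, [t.2.1, t.2.2])) := by
  unfold dg gnum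
  split_ifs with h
  · simp only [dgen, quad_num, List.map_map]
    rfl
  · simp only [dgen, quad_num, List.map_map]
    rfl

/-- differential of a monomial, with given table of differentials of generators -/
def dmo (tab : ℕ → List (ℤ × ℕ × ℕ)) : List ℕ → Po
  | [] => []
  | i :: l => ((tab i).map fun t => (t.1, t.2.1 :: t.2.2 :: l)) ++
      ((dmo tab l).map fun t => (-t.1, i :: t.2))

/-- differential of a polynomial -/
def dpo (tab : ℕ → List (ℤ × ℕ × ℕ)) (p : Po) : Po :=
  p.flatMap fun t => (dmo tab t.2).map fun u => (t.1 * u.1, u.2)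

variable {m}

theorem dmo_spec (s : Str (Fin (m + 1))) (D : Lam (Fin (m + 1)) →ₗ[ℂ] Lam (Fin (m + 1)))
    (hD : IsDer s D) : ∀ l : List ℕ, D (evm m l) = ev m (dmo (dg m s) l)
  | [] => by simp [dmo, hD.one]
  | i :: l => by
    have ih := dmo_spec s D hD l
    have h0 : dmo (dg m s) (i :: l) = ((dg m s i).map fun t => (t.1, t.2.1 :: t.2.2 :: l)) ++
      ((dmo (dg m s) l).map fun t => (-t.1, i :: t.2)) := rfl
    rw [evm_cons, hD.gen_mul, ih, dgen_eq, h0, ev_append]
    have h1 : ∀ L : List (ℤ × ℕ × ℕ), ev m (L.map fun t => (t.1, [t.2.1, t.2.2])) * evm m l =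
        ev m (L.map fun t => (t.1, t.2.1 :: t.2.2 :: l)) := by
      intro L
      induction L with
      | nil => simp
      | cons t L ih =>
        rw [List.map_cons, List.map_cons, ev_cons, ev_cons, add_mul, ih]
        simp [evm_cons, mul_assoc]
    have h2 : ∀ p : Po, ev m (p.map fun t => (-t.1, i :: t.2)) = -(gen (gnum m i) * ev m p) := by
      intro p
      induction p with
      | nil => simp
      | cons t p ih =>
        rw [List.map_cons, ev_cons, ev_cons, ih, mul_add, neg_add]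
        simp [evm_cons]
    rw [h1, h2, sub_eq_add_neg]

theorem dpo_spec (s : Str (Fin (m + 1))) (D : Lam (Fin (m + 1)) →ₗ[ℂ] Lam (Fin (m + 1)))
    (hD : IsDer s D) (p : Po) : D (ev m p) = ev m (dpo (dg m s) p) := by
  induction p with
  | nil => simp [dpo]
  | cons t p ih =>
    have h1 : dpo (dg m s) (t :: p) =
      ((dmo (dg m s) t.2).map fun u => (t.1 * u.1, u.2)) ++ dpo (dg m s) p := rfl
    rw [ev_cons, map_add, map_smul, ih, h1, ev_append, dmo_spec s D hD]
    congr 1
    generalize dmo (dg m s) t.2 = q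
    induction q with
    | nil => simp
    | cons u q ih =>
      rw [List.map_cons, ev_cons, ev_cons, smul_add, ih, smul_smul]
      simp

/-- membership of a sorted monomial -/
theorem evm_mem (l1 l2 : List ℕ) (h1 : ∀ i ∈ l1, i ≤ m) (h2 : ∀ i ∈ l2, m < i) :
    evm m (l1 ++ l2) ∈ (TT l1.length l2.length : Submodule ℂ (Lam (Fin (m + 1)))) := by
  rw [evm_append]
  apply Submodule.mul_mem_mul
  · induction l1 with
    | nil => simp
    | cons a l ih =>
      rw [evm_cons, List.length_cons, pow_succ']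
      apply Submodule.mul_mem_mul
      · have ha := h1 a (List.mem_cons_self ..)
        simp only [gnum, if_pos ha]
        exact Submodule.subset_span ⟨_, rfl⟩
      · exact ih fun i hi => h1 i (List.mem_cons_of_mem _ hi)
  · induction l2 with
    | nil => simp
    | cons a l ih =>
      rw [evm_cons, List.length_cons, pow_succ']
      apply Submodule.mul_mem_mul
      · have ha := h2 a (List.mem_cons_self ..)
        simp only [gnum, if_neg (not_le.2 ha)]
        exact Submodule.subset_span ⟨_, rfl⟩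
      · exact ih fun i hi => h2 i (List.mem_cons_of_mem _ hi)

/-- a polynomial all of whose monomials have `p` holomorphic letters followed by one
antiholomorphic letter -/
def typ (m p : ℕ) (q : Po) : Bool :=
  q.all fun t => Nat.beq t.2.length (p + 1) && ((t.2.take p).all fun i => Nat.ble i m) &&
    ((t.2.drop p).all fun i => Nat.blt m i)

theorem ev_mem (p : ℕ) (q : Po) (h : typ m p q = true) :
    ev m q ∈ (TT p 1 : Submodule ℂ (Lam (Fin (m + 1)))) := by
  unfold typ at h
  rw [List.all_eq_true] at h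
  unfold ev
  apply list_sum_mem
  intro x hx
  rw [List.mem_map] at hx
  obtain ⟨t, ht, rfl⟩ := hx
  apply Submodule.smul_mem
  have h1 := h t ht
  simp only [Bool.and_eq_true, List.all_eq_true] at h1
  obtain ⟨⟨h1, h2⟩, h3⟩ := h1
  replace h1 := Nat.eq_of_beq_eq_true h1
  have h4 := evm_mem (m := m) (t.2.take p) (t.2.drop p)
    (fun i hi => by have := h2 i hi; simpa using this)
    (fun i hi => by have := h3 i hi; simpa [Nat.blt] using this)
  rw [List.take_append_drop, List.length_take, List.length_drop, h1] at h4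
  have h5 : min p (p + 1) = p := by omega
  have h6 : p + 1 - p = 1 := by omega
  rwa [h5, h6] at h4

/-- the monomial of the volume element -/
def vol (m : ℕ) : List (Fin (m + 1)) → List ℕ
  | [] => []
  | i :: L => i.val :: (m + 1 + i.val) :: vol m L

theorem vol_eq (L : List (Fin (m + 1))) : evm m (vol m L) = volE L := by
  induction L with
  | nil => simp [volE, vol]
  | cons i L ih =>
    have h1 : gnum m i.val = Sum.inl i := gnum_num m (Sum.inl i)
    have h2 : gnum m (m + 1 + i.val) = Sum.inr i := gnum_num m (Sum.inr i)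
    rw [vol, evm_cons, evm_cons, ih, h1, h2]
    simp [volE, mul_assoc]

/-- the common part of the certificates -/
theorem core (s : Str (Fin (m + 1))) (D : Lam (Fin (m + 1)) →ₗ[ℂ] Lam (Fin (m + 1)))
    (hD : IsDer s D) (Nb Nt : ℕ) (hNb : Nb ≠ 0) (hNt : Nt ≠ 0) (Lb Lt Eb : Po) (top : List ℕ)
    (k : ℤ) (L : List (Fin (m + 1))) (hk : k ≠ 0)
    (h1 : chk (dpo (dg m s) Lb ++ scl (-1) Eb) = true) (h2 : typ m m Eb = true)
    (h3 : chk (dpo (dg m s) Lt ++ scl (-1) [((Nt : ℤ), top)]) = true)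
    (h4 : typ m (m + 1) [(1, top)] = true)
    (h5 : chk (mml top Lb ++ scl (-k) [(1, vol m L)]) = true) :
    D ((Nb : ℂ)⁻¹ • ev m Lb) = (Nb : ℂ)⁻¹ • ev m Eb ∧
    D ((Nb : ℂ)⁻¹ • ev m Lb) ∈ (TT m 1 : Submodule ℂ (Lam (Fin (m + 1)))) ∧
    D ((Nt : ℂ)⁻¹ • ev m Lt) = evm m top ∧
    D ((Nt : ℂ)⁻¹ • ev m Lt) ∈ (TT (m + 1) 1 : Submodule ℂ (Lam (Fin (m + 1)))) ∧
    ∃ c : ℂ, c ≠ 0 ∧ D ((Nt : ℂ)⁻¹ • ev m Lt) * ((Nb : ℂ)⁻¹ • ev m Lb) = c • volE L := by
  have e1 := eq_of_chk m 1 _ _ h1
  have e3 := eq_of_chk m 1 _ _ h3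
  have e5 := eq_of_chk m k _ _ h5
  have hNt' : (Nt : ℂ) ≠ 0 := by exact_mod_cast hNt
  have hNb' : (Nb : ℂ) ≠ 0 := by exact_mod_cast hNb
  have hk' : (k : ℂ) ≠ 0 := by exact_mod_cast hk
  have d1 : D ((Nb : ℂ)⁻¹ • ev m Lb) = (Nb : ℂ)⁻¹ • ev m Eb := by
    rw [map_smul, dpo_spec s D hD, e1]; simp
  have d3 : D ((Nt : ℂ)⁻¹ • ev m Lt) = evm m top := by
    rw [map_smul, dpo_spec s D hD, e3]
    simp [ev_cons, hNt']
  refine ⟨d1, ?_, d3, ?_, (Nb : ℂ)⁻¹ * k, mul_ne_zero (inv_ne_zero hNb') hk', ?_⟩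
  · rw [d1]
    exact Submodule.smul_mem _ _ (ev_mem m Eb h2)
  · rw [d3]
    have := ev_mem (m + 1) [(1, top)] h4
    simpa [ev_cons] using this
  · rw [d3, mul_smul_comm, ← mml_spec, e5, smul_smul, ev_cons]
    simp [vol_eq]

/-- certificates without blocks -/
theorem cert_of (s : Str (Fin (m + 1))) (Nb Nt : ℕ) (hNb : Nb ≠ 0) (hNt : Nt ≠ 0)
    (Lb Lt Eb : Po) (top : List ℕ)
    (k : ℤ) (L : List (Fin (m + 1))) (hk : k ≠ 0) (hL : L.Nodup) (hL' : ∀ i, i ∈ L)
    (h1 : chk (dpo (dg m s) Lb ++ scl (-1) Eb) = true) (h2 : typ m m Eb = true)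
    (h3 : chk (dpo (dg m s) Lt ++ scl (-1) [((Nt : ℤ), top)]) = true)
    (h4 : typ m (m + 1) [(1, top)] = true)
    (h5 : chk (mml top Lb ++ scl (-k) [(1, vol m L)]) = true) :
    Cert s := by
  intro D hD
  obtain ⟨-, a2, -, a4, c, hc, a5⟩ := core s D hD Nb Nt hNb hNt Lb Lt Eb top k L hk h1 h2 h3 h4 h5
  refine ⟨(Nb : ℂ)⁻¹ • ev m Lb, (Nt : ℂ)⁻¹ • ev m Lt, ?_, ?_, c, L, hc, hL, hL', a5⟩
  · rw [Fintype.card_fin]; exact a2
  · rw [Fintype.card_fin]; exact a4

/-- certificates with blocks -/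
theorem ccert_of (s : Str (Fin (m + 1))) (Nb Nt : ℕ) (hNb : Nb ≠ 0) (hNt : Nt ≠ 0)
    (Lb Lt Eb : Po) (top : List ℕ)
    (k : ℤ) (L : List (Fin (m + 1))) (hk : k ≠ 0) (hL : L.Nodup) (hL' : ∀ i, i ∈ L)
    (h1 : chk (dpo (dg m s) Lb ++ scl (-1) Eb) = true) (h2 : typ m m Eb = true)
    (h3 : chk (dpo (dg m s) Lt ++ scl (-1) [((Nt : ℤ), top)]) = true)
    (h4 : typ m (m + 1) [(1, top)] = true)
    (h5 : chk (mml top Lb ++ scl (-k) [(1, vol m L)]) = true)
    (lam psi psi1 : Po)
    (c1 : chk (Eb ++ scl (-(Nb : ℤ)) (dpo (dg m s) lam ++ mml [0, m + 1] psi)) = true)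
    (c2 : chk (mmr lam [0]) = true)
    (c3 : chk (mml [0] (dpo (dg m s) psi)) = true)
    (c4 : chk (mml [m + 1] (dpo (dg m s) psi)) = true)
    (c5 : chk ([(1, top)] ++ scl (-1) (mml [0, m + 1] psi1)) = true)
    (c6 : chk (mml [0] (dpo (dg m s) psi1)) = true)
    (c7 : chk (mml [m + 1] (dpo (dg m s) psi1)) = true) : CoreCert s := by
  intro D hD
  obtain ⟨a1, a2, a3, a4, c, hc, a5⟩ := core s D hD Nb Nt hNb hNt Lb Lt Eb top k L hk h1 h2 h3 h4 h5
  have g0 : gnum m 0 = Sum.inl 0 := gnum_num m (Sum.inl 0)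
  have g1 : gnum m (m + 1) = Sum.inr 0 := gnum_num m (Sum.inr 0)
  have hNb' : (Nb : ℂ) ≠ 0 := by exact_mod_cast hNb
  have v0 : evm m [0] = gen (Sum.inl 0) := by simp [evm_cons, g0]
  have v1 : evm m [m + 1] = gen (Sum.inr 0) := by simp [evm_cons, g1]
  have v2 : evm m [0, m + 1] = gen (Sum.inl 0) * gen (Sum.inr 0) := by simp [evm_cons, g0, g1]
  refine ⟨(Nb : ℂ)⁻¹ • ev m Lb, (Nt : ℂ)⁻¹ • ev m Lt, ev m lam, ev m psi, ev m psi1, a2, a4,
    ?_, ?_, ?_, ?_, ?_, ?_, ?_, c, L, hc, hL, hL', a5⟩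
  · rw [a1, dpo_spec s D hD, ← v2, ← mml_spec, ← ev_append,
      eq_of_chk m (Nb : ℤ) _ _ c1, smul_smul]
    simp [hNb']
  · rw [← v0, ← mmr_spec]; exact chk_spec m _ c2
  · rw [← v0, dpo_spec s D hD, ← mml_spec]; exact chk_spec m _ c3
  · rw [← v1, dpo_spec s D hD, ← mml_spec]; exact chk_spec m _ c4
  · rw [a3, ← v2, ← mml_spec]
    have := eq_of_chk m 1 _ _ c5
    simpa [ev_cons] using this
  · rw [← v0, dpo_spec s D hD, ← mml_spec]; exact chk_spec m _ c6
  · rw [← v1, dpo_spec s D hD, ← mml_spec]; exact chk_spec m _ c7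

end ev

end Pool.Agent.W839.FS.Alg
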